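import Mathlib
import Pool.Agent.helper7.IG.Basic

/-!
# IG: the frame (module FR)
-/

set_option autoImplicit false

open Polynomial
open scoped IntermediateField.algebraAdjoinAdjoin

noncomputable section

namespace Pool.Agent.helper7.IG

/-- An element of `LL` with a nonzero coefficient away from `0` is transcendental over `kk`. -/
lemma FR_transc {F : LL} {n : ℤ} (hn : n ≠ 0) (h : F.coeff n ≠ 0) : Transcendental kk F := by
  intro hF
  have hint : IsIntegral kk F := hF.isIntegral
  have hirr := minpoly.irreducible hint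
  have hdeg : (minpoly kk F).degree = 1 := IsAlgClosed.degree_eq_one_of_irreducible kk hirr
  obtain ⟨c, hc⟩ := minpoly.mem_range_of_degree_eq_one kk F hdeg
  apply h
  rw [← hc]
  have h0 : algebraMap kk LL c = HahnSeries.C c := rfl
  rw [h0, HahnSeries.C_apply, HahnSeries.coeff_single, if_neg hn]

lemma FR_sig_DDk_coeff {e : ℕ} (he : e ≠ 0) (ζ : kkˣ) : (sig e ζ DDk).coeff (e : ℤ) = (ζ : kk) := by
  classical
  have h := sig_coeff_mul he ζ DDk 1
  rw [mul_one] at h
  rw [h, DDk_coeff, if_pos ⟨1, by norm_num, odd_one⟩]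
  simp

lemma FR_transc_sig {e : ℕ} (he : e ≠ 0) (ζ : kkˣ) : Transcendental kk (sig e ζ DDk) := by
  refine FR_transc (n := (e : ℤ)) (by exact_mod_cast he) ?_
  rw [FR_sig_DDk_coeff he]
  exact ζ.ne_zero

/-- Extension of an endomorphism to an automorphism of the algebraic closure. -/
lemma FR_lift {k M A : Type} [Field k] [Field M] [Algebra k M] [Field A] [Algebra M A]
    [IsAlgClosure M A] [Algebra k A] [IsScalarTower k M A] (σ : M →ₐ[k] M)
    (h : Algebra.IsAlgebraic σ.fieldRange M) :
    ∃ τ : A ≃ₐ[k] A, ∀ x : M, τ (algebraMap M A x) = algebraMap M A (σ x) := by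
  have : Algebra.IsAlgebraic M A := IsAlgClosure.isAlgebraic
  have : Algebra.IsAlgebraic σ.fieldRange A := Algebra.IsAlgebraic.trans σ.fieldRange M A
  have : IsAlgClosure σ.fieldRange A := ⟨IsAlgClosure.isAlgClosed M, inferInstance⟩
  let f : M →+* σ.fieldRange :=
    { toFun := fun x => ⟨σ x, ⟨x, rfl⟩⟩
      map_one' := by ext; simp
      map_mul' := fun x y => by ext; simp
      map_zero' := by ext; simp
      map_add' := fun x y => by ext; simp }
  have hf : Function.Bijective f := by
    refine ⟨f.injective, ?_⟩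
    rintro ⟨y, x, hx⟩
    exact ⟨x, Subtype.ext hx⟩
  let e : M ≃+* σ.fieldRange := RingEquiv.ofBijective f hf
  let τ : A ≃+* A := IsAlgClosure.equivOfEquiv A A e
  have hτ : ∀ x : M, τ (algebraMap M A x) = algebraMap M A (σ x) := by
    intro x
    have h1 := IsAlgClosure.equivOfEquiv_algebraMap A A e x
    exact h1
  refine ⟨AlgEquiv.ofRingEquiv (f := τ) ?_, hτ⟩
  intro c
  rw [IsScalarTower.algebraMap_apply k M A, hτ, AlgHom.commutes]

/-- Elements fixed by all automorphisms over a subfield, in characteristic two. -/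
lemma FR_fix {k M A : Type} [Field k] [Field M] [Algebra k M] [Field A] [Algebra M A]
    [IsAlgClosure M A] [Algebra k A] [IsScalarTower k M A] [CharP M 2] (K : IntermediateField k M)
    (hK : Algebra.IsAlgebraic K M) (y : M)
    (h : ∀ g : A ≃ₐ[k] A, (∀ x ∈ K, g (algebraMap M A x) = algebraMap M A x) →
      g (algebraMap M A y) = algebraMap M A y) : ∃ s : ℕ, y ^ (2 ^ s) ∈ K := by
  classical
  have : Algebra.IsAlgebraic M A := IsAlgClosure.isAlgebraic
  have : Algebra.IsAlgebraic K A := Algebra.IsAlgebraic.trans K M A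
  have : IsAlgClosed A := IsAlgClosure.isAlgClosed M
  have : IsAlgClosure K A := ⟨inferInstance, inferInstance⟩
  have : Normal K A := IsAlgClosure.normal K A
  have : CharP K 2 := (algebraMap K M).charP (algebraMap K M).injective 2
  have : Fact (Nat.Prime 2) := ⟨Nat.prime_two⟩
  have : ExpChar K 2 := ExpChar.prime Nat.prime_two
  set Y := algebraMap M A y with hY
  have hfix : ∀ g : A ≃ₐ[K] A, g Y = Y := by
    intro g
    refine h (g.restrictScalars k) ?_
    intro x hx
    exact g.commutes ⟨x, hx⟩
  have hroots : (minpoly K Y).natSepDegree = 1 := by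
    rw [Polynomial.natSepDegree_eq_of_isAlgClosed A]
    have h2 : ((minpoly K Y).aroots A).toFinset = {Y} := by
      ext z
      rw [Multiset.mem_toFinset, Finset.mem_singleton,
        ← isConjRoot_iff_mem_minpoly_aroots (Algebra.IsIntegral.isIntegral Y),
        isConjRoot_iff_exists_algEquiv]
      constructor
      · rintro ⟨σ, hσ⟩
        apply σ.injective
        rw [hfix σ]
        exact hσ
      · rintro rfl
        exact ⟨AlgEquiv.refl, rfl⟩
    rw [h2, Finset.card_singleton]
  obtain ⟨s, c, hc⟩ := (minpoly.natSepDegree_eq_one_iff_pow_mem 2).mp hroots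
  refine ⟨s, ?_⟩
  have h3 : algebraMap M A (y ^ 2 ^ s) = algebraMap M A (c : M) := by
    rw [map_pow, ← hY, ← hc]
    rfl
  rw [(algebraMap M A).injective h3]
  exact c.2

/-- `Δ` as an element of `MM`. -/
def FR_D : MM := ⟨DDk, DDk_mem⟩

lemma FR_map_adjoin (x : MM) :
    (IntermediateField.adjoin kk {x}).map MM.val = IntermediateField.adjoin kk {(x : LL)} := by
  rw [IntermediateField.adjoin_map, Set.image_singleton]
  rfl

lemma FR_alg_D : Algebra.IsAlgebraic (IntermediateField.adjoin kk {FR_D}) MM := by
  refine ⟨fun F => ?_⟩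
  have hF : IsAlgebraic (IntermediateField.adjoin kk {DDk}) (F : LL) := mem_MM.mp F.2
  obtain ⟨P, hP0, hP⟩ := hF
  have hl : P.map (algebraMap (IntermediateField.adjoin kk {DDk}) LL) ∈
      Polynomial.lifts (algebraMap (IntermediateField.adjoin kk {FR_D}) LL) := by
    rw [Polynomial.lifts_iff_coeff_lifts]
    intro n
    rw [Polynomial.coeff_map]
    have h1 : ((P.coeff n : IntermediateField.adjoin kk {DDk}) : LL) ∈
        (IntermediateField.adjoin kk {FR_D}).map MM.val := by
      rw [FR_map_adjoin]
      exact (P.coeff n).2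
    obtain ⟨c, hc, hc2⟩ := h1
    exact ⟨⟨c, hc⟩, hc2⟩
  obtain ⟨Q, hQ⟩ := (Polynomial.mem_lifts _).mp hl
  refine ⟨Q, ?_, ?_⟩
  · rintro rfl
    rw [Polynomial.map_zero] at hQ
    exact hP0 ((Polynomial.map_eq_zero_iff
      (algebraMap (IntermediateField.adjoin kk {DDk}) LL).injective).mp hQ.symm)
  · have h2 : (algebraMap MM LL) (Polynomial.aeval F Q) = 0 := by
      rw [← Polynomial.aeval_algebraMap_apply]
      have h3 : Polynomial.aeval ((algebraMap MM LL) F) Q = Polynomial.aeval (F : LL) P := by
        rw [← Polynomial.eval_map_algebraMap, ← Polynomial.eval_map_algebraMap, hQ]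
        rfl
      rw [h3, hP]
    exact (map_eq_zero_iff _ (algebraMap MM LL).injective).mp h2

lemma FR_trdeg : Algebra.trdeg kk MM ≤ 1 := by
  have := FR_alg_D
  have : Algebra.IsAlgebraic (Algebra.adjoin kk {FR_D}) MM :=
    (IsFractionRing.comap_isAlgebraic_iff (A := Algebra.adjoin kk {FR_D})
      (K := IntermediateField.adjoin kk {FR_D}) (C := MM)).mpr FR_alg_D
  have h := Algebra.IsAlgebraic.trdeg_le_cardinalMk kk ({FR_D} : Set MM)
  rwa [Cardinal.mk_singleton] at h

/-- `MM` is algebraic over every subfield with a transcendental element. -/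
lemma FR_alg {x : MM} (hx : Transcendental kk (x : LL)) (K : IntermediateField kk MM)
    (hxK : x ∈ K) : Algebra.IsAlgebraic K MM := by
  have hx2 : Transcendental kk x := by
    intro h
    exact hx (h.algebraMap (A := LL))
  have hind : AlgebraicIndependent kk (fun _ : Unit => x) :=
    algebraicIndependent_unique_type_iff.mpr hx2
  have hb : IsTranscendenceBasis kk (fun _ : Unit => x) := by
    refine hind.isTranscendenceBasis_of_trdeg_le_of_finite ?_
    have h := FR_trdeg
    simpa using h
  have halg := hb.isAlgebraic_field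
  have hle : IntermediateField.adjoin kk (Set.range fun _ : Unit => x) ≤ K := by
    rw [IntermediateField.adjoin_le_iff]
    rintro y ⟨_, rfl⟩
    exact hxK
  let : Algebra (IntermediateField.adjoin kk (Set.range fun _ : Unit => x)) K :=
    (IntermediateField.inclusion hle).toRingHom.toAlgebra
  have : IsScalarTower (IntermediateField.adjoin kk (Set.range fun _ : Unit => x)) K MM :=
    IsScalarTower.of_algebraMap_eq fun _ => rfl
  exact Algebra.IsAlgebraic.tower_top
    (K := IntermediateField.adjoin kk (Set.range fun _ : Unit => x)) K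

open Classical in
theorem FR_of (hME : ME_stmt) (_hTHM : THM_stmt) : FR_stmt := by
  have : CharP MM 2 := charP_of_injective_algebraMap (algebraMap kk MM).injective 2
  refine ⟨
    { A := AlgebraicClosure MM
      cl := fun F => if h : F ∈ MM then algebraMap MM (AlgebraicClosure MM) ⟨F, h⟩ else 0
      cl_add := ?_
      cl_mul := ?_
      cl_alg := ?_
      cl_inj := ?_
      ext_sig := ?_
      conj := ?_ }⟩
  · intro F hF G hG
    rw [dif_pos hF, dif_pos hG, dif_pos (add_mem hF hG), ← map_add]
    rfl
  · intro F hF G hG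
    rw [dif_pos hF, dif_pos hG, dif_pos (mul_mem hF hG), ← map_mul]
    rfl
  · intro c
    rw [dif_pos (C_mem c), IsScalarTower.algebraMap_apply kk MM (AlgebraicClosure MM)]
    rfl
  · intro F hF h
    rw [dif_pos hF, map_eq_zero_iff _ (algebraMap MM (AlgebraicClosure MM)).injective] at h
    exact congrArg Subtype.val h
  · intro e ζ he
    have he0 : e ≠ 0 := by rintro rfl; exact absurd he (by decide)
    let σ : MM →ₐ[kk] MM :=
      { toFun := fun x => ⟨sig e ζ x, hME e ζ x he x.2⟩
        map_one' := by ext1; simp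
        map_mul' := fun x y => by ext1; simp
        map_zero' := by ext1; simp
        map_add' := fun x y => by ext1; simp
        commutes' := fun c => by
          apply Subtype.ext
          exact (sig e ζ).commutes c }
    have hσ : Algebra.IsAlgebraic σ.fieldRange MM := by
      refine FR_alg (x := σ FR_D) ?_ _ ⟨FR_D, rfl⟩
      exact FR_transc_sig he0 ζ
    obtain ⟨τ, hτ⟩ := FR_lift (A := AlgebraicClosure MM) σ hσ
    refine ⟨τ, ?_⟩
    intro F hF
    rw [dif_pos hF, dif_pos (hME e ζ F he hF), hτ]
    rfl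
  · intro N y hN hy hfix
    have hN0 : N ≠ 0 := by rintro rfl; exact absurd hN (by decide)
    have hd : sig N 1 DDk ∈ MM := hME N 1 DDk hN DDk_mem
    set d : MM := ⟨sig N 1 DDk, hd⟩ with hddef
    have hdK : d ∈ IntermediateField.adjoin kk {d} := IntermediateField.mem_adjoin_simple_self _ _
    have hK : Algebra.IsAlgebraic (IntermediateField.adjoin kk {d}) MM :=
      FR_alg (x := d) (FR_transc_sig hN0 1) _ hdK
    obtain ⟨s, hs⟩ := FR_fix (A := AlgebraicClosure MM) (IntermediateField.adjoin kk {d}) hK ⟨y, hy⟩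
      (by
        intro g hg
        have h1 := hfix g
        rw [dif_pos hd, dif_pos hy] at h1
        exact h1 (hg d hdK))
    refine ⟨s, ?_⟩
    have h2 : MM.val (⟨y, hy⟩ ^ 2 ^ s) ∈ (IntermediateField.adjoin kk {d}).map MM.val :=
      ⟨_, hs, rfl⟩
    rw [FR_map_adjoin] at h2
    exact h2

end Pool.Agent.helper7.IG
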