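import Mathlib
import Pool.Agent.helper7.IG.Basic

/-!
# IG: the substitutions preserve the modular functions (module ME)
-/

set_option autoImplicit false

open Polynomial

noncomputable section

namespace Pool.Agent.helper7.IG

/-- An element of `LL` with a nonzero coefficient away from `0` is transcendental over `kk`. -/
lemma ME_transc {F : LL} {n : ℤ} (hn : n ≠ 0) (h : F.coeff n ≠ 0) : Transcendental kk F := by
  intro hF
  have hint : IsIntegral kk F := hF.isIntegral
  have hirr := minpoly.irreducible hint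
  have hdeg : (minpoly kk F).degree = 1 := IsAlgClosed.degree_eq_one_of_irreducible kk hirr
  obtain ⟨c, hc⟩ := minpoly.mem_range_of_degree_eq_one kk F hdeg
  apply h
  rw [← hc]
  have h0 : algebraMap kk LL c = HahnSeries.C c := rfl
  rw [h0, HahnSeries.C_apply, HahnSeries.coeff_single, if_neg hn]

lemma ME_sig_DDk_coeff {e : ℕ} (he : e ≠ 0) (ζ : kkˣ) : (sig e ζ DDk).coeff (e : ℤ) = (ζ : kk) := by
  classical
  have h := sig_coeff_mul he ζ DDk 1
  rw [mul_one] at h
  rw [h, DDk_coeff, if_pos ⟨1, by norm_num, odd_one⟩]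
  simp

lemma ME_transc_sig {e : ℕ} (he : e ≠ 0) (ζ : kkˣ) : Transcendental kk (sig e ζ DDk) := by
  refine ME_transc (n := (e : ℤ)) (by exact_mod_cast he) ?_
  rw [ME_sig_DDk_coeff he]
  exact ζ.ne_zero

lemma ME_transc_DDk : Transcendental kk DDk := by
  have h := ME_transc_sig one_ne_zero 1
  rwa [sig_one] at h

/-- A substitution that maps `Δ` into `MM` maps `MM` into `MM`. -/
lemma ME_step {e : ℕ} {ζ : kkˣ} (h : sig e ζ DDk ∈ MM) {F : LL} (hF : F ∈ MM) :
    sig e ζ F ∈ MM := by
  have hadj : ∀ x ∈ IntermediateField.adjoin kk {DDk}, sig e ζ x ∈ MM := by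
    intro x hx
    have h1 : (IntermediateField.adjoin kk {DDk}).map (sig e ζ) ≤ MM := by
      rw [IntermediateField.adjoin_map, IntermediateField.adjoin_le_iff]
      rintro y ⟨z, hz, rfl⟩
      rw [Set.mem_singleton_iff] at hz
      subst hz
      exact h
    exact h1 ⟨x, hx, rfl⟩
  rw [mem_MM] at hF
  obtain ⟨P, hP0, hP⟩ := hF
  refine mem_MM_of_root
    ((P.map (algebraMap (IntermediateField.adjoin kk {DDk}) LL)).map (sig e ζ : LL →+* LL)) ?_ ?_ ?_
  · have hi : Function.Injective (sig e ζ : LL →+* LL) := sig_injective e ζ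
    rw [Ne, Polynomial.map_eq_zero_iff hi, Polynomial.map_eq_zero_iff
      (algebraMap (IntermediateField.adjoin kk {DDk}) LL).injective]
    exact hP0
  · intro i
    rw [Polynomial.coeff_map, Polynomial.coeff_map]
    exact hadj _ (P.coeff i).2
  · have h2 : Polynomial.eval (sig e ζ F)
        ((P.map (algebraMap (IntermediateField.adjoin kk {DDk}) LL)).map (sig e ζ : LL →+* LL)) =
        (sig e ζ) (Polynomial.eval F
          (P.map (algebraMap (IntermediateField.adjoin kk {DDk}) LL))) := by
      have h3 := Polynomial.eval_map_apply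
        (p := P.map (algebraMap (IntermediateField.adjoin kk {DDk}) LL))
        (sig e ζ : LL →+* LL) F
      exact h3
    rw [h2, Polynomial.eval_map_algebraMap, hP, map_zero]

/-- Evaluation of the modular equation. -/
lemma ME_psi_root {Ψ : Polynomial (Polynomial kk)} {p : ℕ} {ω : kkˣ}
    (hΨ : Ψ.map (Polynomial.aeval (R := kk) (sig p 1 DDk)).toRingHom =
      (X - C (sig (p * p) 1 DDk)) * ∏ j ∈ Finset.range p, (X - C (sig 1 (ω ^ j) DDk)))
    (j : ℕ) (hj : j < p) :
    (Ψ.map (Polynomial.aeval (R := kk) (sig p 1 DDk)).toRingHom).eval (sig 1 (ω ^ j) DDk) = 0 := by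
  rw [hΨ, Polynomial.eval_mul, Polynomial.eval_prod, Finset.prod_eq_zero (Finset.mem_range.mpr hj)
    (by simp), mul_zero]

lemma ME_aeval_mem {Z : LL} (hZ : Z ∈ MM) (P : Polynomial kk) : Polynomial.aeval Z P ∈ MM := by
  have h : Polynomial.aeval Z P = ((Polynomial.aeval (⟨Z, hZ⟩ : MM) P : MM) : LL) := by
    have h2 := Polynomial.aeval_algebraMap_apply LL (⟨Z, hZ⟩ : MM) P
    exact h2
  rw [h]
  exact SetLike.coe_mem _

lemma ME_monic_root {Ψ : Polynomial (Polynomial kk)} (hm : Ψ.Monic) {Z Y : LL} (hZ : Z ∈ MM)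
    (h : (Ψ.map (Polynomial.aeval (R := kk) Z).toRingHom).eval Y = 0) : Y ∈ MM := by
  refine mem_MM_of_root _ (hm.map _).ne_zero ?_ h
  intro i
  rw [Polynomial.coeff_map]
  exact ME_aeval_mem hZ _

lemma ME_prime_one (hpsi : PSI_stmt) {p : ℕ} (hp : p.Prime) (hp2 : p ≠ 2) :
    sig p 1 DDk ∈ MM := by
  obtain ⟨Ψ, hmon, hdeg, -, hΨ⟩ := hpsi p hp hp2
  obtain ⟨ω, hω⟩ := exists_primitive p (hp.odd_of_ne_two hp2)
  have hroot := ME_psi_root (hΨ ω hω) 0 hp.pos
  rw [pow_zero, sig_one] at hroot
  set Z := sig p 1 DDk with hZ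
  -- the equation as a polynomial in `Z`
  set Q : Polynomial LL := ∑ i ∈ Finset.range (Ψ.natDegree + 1),
    (Ψ.coeff i).map (algebraMap kk LL) * C (DDk ^ i) with hQ
  have hQcoeff : ∀ j, Q.coeff j = ∑ i ∈ Finset.range (Ψ.natDegree + 1),
      algebraMap kk LL ((Ψ.coeff i).coeff j) * DDk ^ i := by
    intro j
    rw [hQ, Polynomial.finsetSum_coeff]
    refine Finset.sum_congr rfl fun i _ => ?_
    rw [Polynomial.coeff_mul_C, Polynomial.coeff_map]
  refine mem_MM_of_root Q ?_ ?_ ?_
  · intro h0
    have h1 := hQcoeff 0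
    rw [h0, Polynomial.coeff_zero] at h1
    set R : Polynomial kk := Ψ.map Polynomial.constantCoeff with hR
    have hRm : R.Monic := hmon.map _
    have hRd : R.natDegree = Ψ.natDegree := hmon.natDegree_map _
    have h2 : Polynomial.aeval DDk R = 0 := by
      rw [Polynomial.aeval_eq_sum_range, hRd, h1]
      refine Finset.sum_congr rfl fun i _ => ?_
      rw [hR, Polynomial.coeff_map, Algebra.smul_def]
      rfl
    exact ME_transc_DDk ⟨R, hRm.ne_zero, h2⟩
  · intro j
    rw [hQcoeff]
    exact sum_mem fun i _ => mul_mem (C_mem _) (pow_mem DDk_mem i)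
  · rw [hQ, Polynomial.eval_finsetSum]
    rw [Polynomial.eval_eq_sum_range, hmon.natDegree_map] at hroot
    rw [← hroot]
    refine Finset.sum_congr rfl fun i _ => ?_
    rw [Polynomial.eval_mul, Polynomial.eval_C, Polynomial.eval_map_algebraMap,
      Polynomial.coeff_map]
    rfl

lemma ME_sig_mul_one (e e' : ℕ) (he : e ≠ 0) (he' : e' ≠ 0) (F : LL) :
    sig (e * e') 1 F = sig e 1 (sig e' 1 F) := by
  rw [sig_sig he he', one_pow, mul_one]

lemma ME_odd_one (hpsi : PSI_stmt) (e : ℕ) (he : Odd e) : sig e 1 DDk ∈ MM := by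
  induction e using Nat.strong_induction_on with
  | _ e ih =>
    by_cases h1 : e = 1
    · rw [h1, sig_one]
      exact DDk_mem
    · have hp : e.minFac.Prime := Nat.minFac_prime h1
      obtain ⟨m, hm⟩ := Nat.minFac_dvd e
      have he0 : e ≠ 0 := by rintro rfl; exact absurd he (by decide)
      have hm0 : m ≠ 0 := by rintro rfl; rw [mul_zero] at hm; exact he0 hm
      have hodd : Odd m := by
        rw [hm] at he
        exact (Nat.odd_mul.mp he).2
      have hpo : Odd e.minFac := by
        have h2 : Odd (e.minFac * m) := by rw [← hm]; exact he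
        exact (Nat.odd_mul.mp h2).1
      have hp2 : e.minFac ≠ 2 := by
        intro h
        rw [h] at hpo
        exact absurd hpo (by decide)
      have hlt : m < e := by
        have h3 : 2 ≤ e.minFac := hp.two_le
        calc m < 2 * m := by omega
          _ ≤ e.minFac * m := Nat.mul_le_mul_right _ h3
          _ = e := hm.symm
      have h4 : sig e 1 DDk = sig e.minFac 1 (sig m 1 DDk) := by
        rw [← ME_sig_mul_one _ _ hp.ne_zero hm0, ← hm]
      rw [h4]
      exact ME_step (ME_prime_one hpsi hp hp2) (ih m hlt hodd)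

lemma ME_twist (hpsi : PSI_stmt) (n : ℕ) : Odd n → ∀ z : kkˣ, z ^ n = 1 →
    sig 1 z DDk ∈ MM := by
  induction n using Nat.strong_induction_on with
  | _ n ih =>
    intro hn z hz
    by_cases h1 : n = 1
    · rw [h1, pow_one] at hz
      rw [hz, sig_one]
      exact DDk_mem
    · have hp : n.minFac.Prime := Nat.minFac_prime h1
      obtain ⟨m, hm⟩ := Nat.minFac_dvd n
      set p := n.minFac with hpdef
      have hn0 : n ≠ 0 := by rintro rfl; exact absurd hn (by decide)
      have hm0 : m ≠ 0 := by rintro rfl; rw [mul_zero] at hm; exact hn0 hm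
      have h2 : Odd (p * m) := by rw [← hm]; exact hn
      have hpo : Odd p := (Nat.odd_mul.mp h2).1
      have hodd : Odd m := (Nat.odd_mul.mp h2).2
      have hp2 : p ≠ 2 := by
        intro h
        rw [h] at hpo
        exact absurd hpo (by decide)
      have hlt : m < n := by
        have h3 : 2 ≤ p := hp.two_le
        calc m < 2 * m := by omega
          _ ≤ p * m := Nat.mul_le_mul_right _ h3
          _ = n := hm.symm
      have hz2 : (z ^ p) ^ m = 1 := by rw [← pow_mul, ← hm, hz]
      have h4 := ih m hlt hodd (z ^ p) hz2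
      have hpm := ME_prime_one hpsi hp hp2
      have h5 : sig 1 z (sig p 1 DDk) ∈ MM := by
        have h6 : sig 1 z (sig p 1 DDk) = sig p 1 (sig 1 (z ^ p) DDk) := by
          rw [sig_sig one_ne_zero hp.ne_zero, sig_sig hp.ne_zero one_ne_zero]
          simp
        rw [h6]
        exact ME_step hpm h4
      obtain ⟨Ψ, hmon, hdeg, -, hΨ⟩ := hpsi p hp hp2
      obtain ⟨ω, hω⟩ := exists_primitive p hpo
      have hroot := ME_psi_root (hΨ ω hω) 0 hp.pos
      rw [pow_zero, sig_one] at hroot
      refine ME_monic_root hmon h5 ?_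
      have h7 := congrArg (sig 1 z) hroot
      rw [map_zero] at h7
      rw [← h7, Polynomial.eval_eq_sum_range, Polynomial.eval_eq_sum_range, hmon.natDegree_map,
        hmon.natDegree_map, map_sum]
      refine Finset.sum_congr rfl fun i _ => ?_
      rw [map_mul, map_pow, Polynomial.coeff_map, Polynomial.coeff_map]
      congr 1
      exact Polynomial.aeval_algHom_apply (sig 1 z) (sig p 1 DDk) (Ψ.coeff i)

theorem ME_of (hpsi : PSI_stmt) : ME_stmt := by
  intro e ζ F he hF
  have he0 : e ≠ 0 := by rintro rfl; exact absurd he (by decide)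
  have h : sig e ζ F = sig e 1 (sig 1 ζ F) := by
    rw [sig_sig he0 one_ne_zero, mul_one, pow_one, mul_one]
  obtain ⟨n, hn, hzn⟩ := exists_odd_order ζ
  rw [h]
  exact ME_step (ME_odd_one hpsi e he) (ME_step (ME_twist hpsi n hn ζ hzn) hF)

end Pool.Agent.helper7.IG
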